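import Mathlib
import Pool.Agent.Helper56.TOF.Goals
import Pool.Agent.Helper57.RZ.T1

/-!
# Project TOF, packet HCL: `h` and its inverse are `C^1` close to the identity
-/

set_option autoImplicit false

open Set Filter Topology MeasureTheory

open scoped ContDiff

namespace Pool.Agent.Helper78.TOF

open Pool.Agent.Helper56.RZ Pool.Agent.Helper56.TOF Pool.Agent.Helper30.CIR
  Pool.Agent.Helper57.RZ

theorem tan_extR {K : ℕ} {M : Set (E K)} {x : E K} {u : E K → ℝ} {A B : E K →L[ℝ] ℝ}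
    (hA : HasFDerivWithinAt u A M x) (hB : HasFDerivWithinAt u B M x) {v : E K}
    (hv : v ∈ tan M x) : A v = B v := by
  have h1 : EqOn A B (tangentConeAt ℝ M x) := hA.unique_on hB
  exact LinearMap.eqOn_span (f := (A : E K →ₗ[ℝ] ℝ)) (g := (B : E K →ₗ[ℝ] ℝ)) h1 hv

theorem der_bdd {K : ℕ} {M : Set (E K)} (hM : IsCompact M) {f : E K → E K}
    (hf : ContDiffOn ℝ 1 f M) : ∃ C : ℝ, 1 ≤ C ∧ ∀ x ∈ M, ‖der M f x‖ ≤ C := by
  have key : ∃ C : ℝ, ∀ x ∈ M, ‖der M f x‖ ≤ C := by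
    refine hM.induction_on (p := fun S => ∃ C : ℝ, ∀ x ∈ S, ‖der M f x‖ ≤ C) ⟨0, by simp⟩
      ?_ ?_ ?_
    · rintro s t hst ⟨C, hC⟩
      exact ⟨C, fun x hx => hC x (hst hx)⟩
    · rintro s t ⟨C, hC⟩ ⟨C', hC'⟩
      refine ⟨max C C', fun x hx => ?_⟩
      rcases hx with hx | hx
      · exact (hC x hx).trans (le_max_left _ _)
      · exact (hC' x hx).trans (le_max_right _ _)
    · intro x hx
      have h0 : ContDiffWithinAt ℝ (0 + 1) f M x := by
        rw [zero_add]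
        exact hf x hx
      rw [contDiffWithinAt_succ_iff_hasFDerivWithinAt (by simp)] at h0
      obtain ⟨u, hu, -, f', hf', hc⟩ := h0
      rw [insert_eq_of_mem hx] at hu
      obtain ⟨o, ho, hxo, hou⟩ := mem_nhdsWithin.1 hu
      have hc' : ContinuousWithinAt f' M x := by
        have h3 : ContinuousWithinAt f' u x := hc.continuousWithinAt
        exact h3.mono_of_mem_nhdsWithin hu
      have hlt : ∀ᶠ y in 𝓝[M] x, ‖f' y‖ < ‖f' x‖ + 1 :=
        (hc'.norm.tendsto).eventually (gt_mem_nhds (lt_add_one _))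
      refine ⟨{y | ‖der M f y‖ ≤ ‖f' x‖ + 1}, ?_, ‖f' x‖ + 1, fun y hy => hy⟩
      filter_upwards [mem_nhdsWithin_of_mem_nhds (ho.mem_nhds hxo), self_mem_nhdsWithin, hlt]
        with y hy hyM hy3
      have e := (t2 K M f f y hyM).1 (f' y) ((hf' y (hou ⟨hy, hyM⟩)).mono_of_mem_nhdsWithin
        (mem_nhdsWithin.2 ⟨o, ho, hy, hou⟩))
      rw [← e]
      calc ‖f' y * Pi M y‖ ≤ ‖f' y‖ * ‖Pi M y‖ := norm_mul_le _ _
        _ ≤ ‖f' y‖ * 1 := mul_le_mul_of_nonneg_left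
            (Submodule.starProjection_norm_le _) (norm_nonneg _)
        _ ≤ ‖f' x‖ + 1 := by rw [mul_one]; exact hy3.le
  obtain ⟨C, hC⟩ := key
  exact ⟨max C 1, le_max_right _ _, fun x hx => (hC x hx).trans (le_max_left _ _)⟩

/-- **Packet HCL.** -/
theorem gHCL : Pool.Agent.Helper30.CIR.StmtXF → StmtSMO → StmtSM1 → StmtGC1 → StmtGDR →
    StmtHCL := by
  intro hXF hSMO hSM1 hGC1 _ N K r s M m A b B tau p b0 z0 Φ Φ' hr hrs hs hM hA hBox hb0 hΦ hΦ'
    δ hδ
  have h1s : (1 : WithTop ℕ∞) ≤ s := le_trans (by exact_mod_cast hr) hrs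
  obtain ⟨δ', hδ', hgc⟩ := hGC1 N K s M m A h1s hs hM hA δ hδ
  obtain ⟨hgen, hx⟩ := hXF K s M A h1s hA
  -- bounds
  obtain ⟨G0, hG0⟩ := hM.compact.exists_bound_of_continuousOn hgen
  set G : ℝ := max G0 1 with hG
  have hG1 : 1 ≤ G := le_max_right _ _
  have hGb : ∀ x ∈ M, ‖gen A x‖ ≤ G := fun x hx => (hG0 x hx).trans (le_max_left _ _)
  have hA1 : ContDiffOn ℝ s (A 1) M := by
    have h1 : ContDiffOn ℝ s (fun x : E K => ((1 : ℝ), x)) M :=
      contDiffOn_const.prodMk contDiffOn_id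
    exact hA.smooth.comp h1 (fun x hx => ⟨mem_univ _, hx⟩)
  obtain ⟨D, hD1, hDb⟩ := der_bdd hM.compact (hA1.of_le h1s)
  set ε : ℝ := min (δ' / (2 * D)) (1 / (2 * G)) with hε
  have hεp : 0 < ε := by
    refine lt_min ?_ ?_ <;> positivity
  have hεD : ε * D ≤ δ' / 2 := by
    have h1 : ε ≤ δ' / (2 * D) := min_le_left _ _
    calc ε * D ≤ δ' / (2 * D) * D := mul_le_mul_of_nonneg_right h1 (by linarith)
      _ = δ' / 2 := by field_simp
  have hεδ : ε ≤ δ' / 2 := le_trans (by nlinarith) hεD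
  have hεG : ε * G ≤ 1 / 2 := by
    have h1 : ε ≤ 1 / (2 * G) := min_le_right _ _
    calc ε * G ≤ 1 / (2 * G) * G := mul_le_mul_of_nonneg_right h1 (by linarith)
      _ = 1 / 2 := by field_simp
  obtain ⟨q1, hq1⟩ := hSM1 N K r s M m A b B tau p b0 z0 Φ hr hrs hs hM hBox hb0 hΦ ε hεp
  obtain ⟨q2, hq2⟩ := hSM1 N K r s M m A b B tau p b0 z0 Φ' hr hrs hs hM hBox hb0 hΦ' ε hεp
  obtain ⟨q3, hq3⟩ := exists_nat_gt (1 / z0)
  refine ⟨min (11 / 10) (1 + δ' / 2), lt_min (by norm_num) (by linarith), min_le_left _ _,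
    max (max q1 q2) (max 1 q3), fun q hq al hal1 hal x hxM => ?_⟩
  have hqq1 : q1 ≤ q := (le_max_left _ _).trans ((le_max_left _ _).trans hq)
  have hqq2 : q2 ≤ q := (le_max_right _ _).trans ((le_max_left _ _).trans hq)
  have hq1' : 1 ≤ q := (le_max_left _ _).trans ((le_max_right _ _).trans hq)
  have hqq3 : q3 ≤ q := (le_max_right _ _).trans ((le_max_right _ _).trans hq)
  have hz0 := hΦ.pos
  have hcq : cq q r < z0 := by
    have hqR : (1 : ℝ) ≤ q := by exact_mod_cast hq1'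
    have h1 : 1 / z0 < q := hq3.trans_le (by exact_mod_cast hqq3)
    have h2 : (q : ℝ) ≤ (q : ℝ) ^ r := by
      calc (q : ℝ) = (q : ℝ) ^ 1 := (pow_one _).symm
        _ ≤ (q : ℝ) ^ r := pow_le_pow_right₀ hqR hr
    unfold cq
    calc ((q : ℝ) ^ r)⁻¹ ≤ (q : ℝ)⁻¹ := inv_anti₀ (by linarith) h2
      _ < (1 / z0)⁻¹ := inv_strictAnti₀ (by positivity) h1
      _ = z0 := by rw [one_div, inv_inv]
  have hal0 : 0 < al := by linarith
  have hal2 : al ≤ 2 := hal.trans ((min_le_left _ _).trans (by norm_num))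
  have hald : al ≤ 1 + δ' / 2 := hal.trans (min_le_right _ _)
  have hinv : 0 ≤ 1 - 1 / al ∧ 1 - 1 / al ≤ δ' / 2 := by
    have h1 : 1 / al ≤ 1 := by rw [div_le_one hal0]; exact hal1
    have h2 : 1 - 1 / al = (al - 1) / al := by field_simp
    refine ⟨by linarith, ?_⟩
    rw [h2, div_le_iff₀ hal0]
    nlinarith
  have hsl : ContDiffOn ℝ s (fun y : E K => (al, y)) M := contDiffOn_const.prodMk contDiffOn_id
  have hmaps : MapsTo (fun y : E K => (al, y)) M (Ioi 0 ×ˢ M) := fun y hy => ⟨hal0, hy⟩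
  have hth : ContDiffOn ℝ 1 (th Φ B tau b0 q r al) M :=
    ((hSMO K s M A b B tau p b0 z0 Φ q r hs hBox hb0 hΦ hq1' hcq).comp hsl hmaps).of_le h1s
  have hth' : ContDiffOn ℝ 1 (th Φ' B tau b0 q r al) M :=
    ((hSMO K s M A b B tau p b0 z0 Φ' q r hs hBox hb0 hΦ' hq1' hcq).comp hsl hmaps).of_le h1s
  have hA11 : ContDiffOn ℝ 1 (A 1) M := hA1.of_le h1s
  have hthc : ContDiffOn ℝ 1 (fun y => th Φ' B tau b0 q r al (A 1 y)) M :=
    hth'.comp hA11 (hA.maps 1)
  have huu : ContDiffOn ℝ 1 (uu Φ B tau b0 q r al) M := contDiffOn_const.add hth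
  have hui : ContDiffOn ℝ 1 (ui A Φ' B tau b0 q r al) M := contDiffOn_const.add hthc
  have b1 := hq1 q hqq1 al hal1 hal2
  have b2 := hq2 q hqq2 al hal1 hal2
  have du : ∀ y, fderivWithin ℝ (uu Φ B tau b0 q r al) M y =
      fderivWithin ℝ (th Φ B tau b0 q r al) M y := fun y =>
    fderivWithin_const_add (1 / al - 1)
  have di : ∀ y, fderivWithin ℝ (ui A Φ' B tau b0 q r al) M y =
      fderivWithin ℝ (fun y => th Φ' B tau b0 q r al (A 1 y)) M y := fun y =>
    fderivWithin_const_add (1 - 1 / al)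
  have hu1 : ∀ y ∈ M, |uu Φ B tau b0 q r al y| ≤ δ' ∧
      ‖(fderivWithin ℝ (uu Φ B tau b0 q r al) M y) ∘L (Pi M y)‖ ≤ δ' := by
    intro y hy
    obtain ⟨h1, h2⟩ := b1 y hy
    refine ⟨?_, ?_⟩
    · unfold uu
      have h3 := abs_le.1 h1
      rw [abs_le]
      constructor <;> linarith [hinv.1, hinv.2, h3.1, h3.2]
    · rw [du]
      linarith
  have hu2 : ∀ y ∈ M, |ui A Φ' B tau b0 q r al y| ≤ δ' ∧
      ‖(fderivWithin ℝ (ui A Φ' B tau b0 q r al) M y) ∘L (Pi M y)‖ ≤ δ' := by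
    intro y hy
    obtain ⟨h1, h2⟩ := b2 (A 1 y) (hA.maps 1 hy)
    refine ⟨?_, ?_⟩
    · unfold ui
      have h3 := abs_le.1 h1
      rw [abs_le]
      constructor <;> linarith [hinv.1, hinv.2, h3.1, h3.2]
    · rw [di]
      have dA : DifferentiableWithinAt ℝ (A 1) M y := (hA11.differentiableOn (by simp)) y hy
      have dt : DifferentiableWithinAt ℝ (th Φ' B tau b0 q r al) M (A 1 y) :=
        (hth'.differentiableOn (by simp)) _ (hA.maps 1 hy)
      have hc := dt.hasFDerivWithinAt.comp y dA.hasFDerivWithinAt (hA.maps 1)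
      have hd : HasFDerivWithinAt (fun y => th Φ' B tau b0 q r al (A 1 y))
          (fderivWithin ℝ (fun y => th Φ' B tau b0 q r al (A 1 y)) M y) M y :=
        ((hthc.differentiableOn (by simp)) y hy).hasFDerivWithinAt
      have hP := (t2 K M (A 1) (A 1) y hy).2.1 (hA.maps 1) dA
      refine (ContinuousLinearMap.opNorm_le_bound _ (by positivity) fun v => ?_ :
        _ ≤ ε * D).trans (by linarith)
      have e1 : ((fderivWithin ℝ (fun y => th Φ' B tau b0 q r al (A 1 y)) M y) ∘L (Pi M y)) v =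
          ((fderivWithin ℝ (th Φ' B tau b0 q r al) M (A 1 y)) ∘L (Pi M (A 1 y)))
            (der M (A 1) y v) := by
        rw [ContinuousLinearMap.comp_apply, tan_extR hd hc (Pi_mem M y v),
          ContinuousLinearMap.comp_apply, ContinuousLinearMap.comp_apply]
        have e2 : fderivWithin ℝ (A 1) M y (Pi M y v) = der M (A 1) y v := rfl
        have e3 : Pi M (A 1 y) (der M (A 1) y v) = der M (A 1) y v := by
          conv_rhs => rw [← hP]
          rfl
        rw [e2, e3]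
      rw [e1]
      calc _ ≤ ‖(fderivWithin ℝ (th Φ' B tau b0 q r al) M (A 1 y)) ∘L (Pi M (A 1 y))‖ *
            ‖der M (A 1) y v‖ := ContinuousLinearMap.le_opNorm _ _
        _ ≤ ε * (D * ‖v‖) := by
            refine mul_le_mul h2 ?_ (norm_nonneg _) hεp.le
            exact (ContinuousLinearMap.le_opNorm _ _).trans
              (mul_le_mul_of_nonneg_right (hDb y hy) (norm_nonneg _))
        _ = ε * D * ‖v‖ := by ring
  obtain ⟨c1, c2⟩ := hgc _ huu hu1 x hxM
  obtain ⟨-, c3⟩ := hgc _ hui hu2 x hxM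
  refine ⟨c1, c2, c3, ?_⟩
  -- derivative along the flow
  obtain ⟨hder, hPi, -, -⟩ := hx x hxM
  have h0 : A 0 x = x := hA.zero x hxM
  have hcur : HasDerivAt (fun t => A t x) (gen A x) 0 := by
    have := hder 0
    rwa [h0] at this
  have hud : HasFDerivWithinAt (uu Φ B tau b0 q r al)
      (fderivWithin ℝ (uu Φ B tau b0 q r al) M x) M (A 0 x) := by
    rw [h0]
    exact ((huu.differentiableOn (by simp)) x hxM).hasFDerivWithinAt
  have hcomp : HasDerivAt (fun t => uu Φ B tau b0 q r al (A t x))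
      (fderivWithin ℝ (uu Φ B tau b0 q r al) M x (gen A x)) 0 :=
    HasFDerivWithinAt.comp_hasDerivAt (f := fun t => A t x) (0 : ℝ) hud hcur
      (Eventually.of_forall fun t => hA.maps t hxM)
  unfold kapT
  rw [hcomp.deriv, du]
  have e4 : fderivWithin ℝ (th Φ B tau b0 q r al) M x (gen A x) =
      ((fderivWithin ℝ (th Φ B tau b0 q r al) M x) ∘L (Pi M x)) (gen A x) := by
    rw [ContinuousLinearMap.comp_apply, hPi]
  have e5 : |fderivWithin ℝ (th Φ B tau b0 q r al) M x (gen A x)| ≤ 1 / 2 := by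
    rw [e4, ← Real.norm_eq_abs]
    calc _ ≤ ‖(fderivWithin ℝ (th Φ B tau b0 q r al) M x) ∘L (Pi M x)‖ * ‖gen A x‖ :=
          ContinuousLinearMap.le_opNorm _ _
      _ ≤ ε * G := mul_le_mul (b1 x hxM).2 (hGb x hxM) (norm_nonneg _) hεp.le
      _ ≤ 1 / 2 := hεG
  linarith [(abs_le.1 e5).1]

end Pool.Agent.Helper78.TOF
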